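import Mathlib

/-!
Two-digit grid argument: a set of positive codimension in a grid contains a pair of points
differing in exactly `d` coordinates, with alternating signs.
-/

namespace Pool.Agent.R103.Grid

open Finset

/-- Points of the grid: top digits and bottom digits. -/
abbrev Pt (ι : Type) (B : ℕ) : Type := (ι → Fin B) × (ι → Fin B)

section

variable {ι : Type} [Fintype ι] [LinearOrder ι] {B : ℕ}

/-- `z` and `z'` differ at most in the bottom digits of `A`. -/
def Sim (A : Finset ι) (z z' : Pt ι B) : Prop := z.1 = z'.1 ∧ ∀ j, j ∉ A → z.2 j = z'.2 j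

/-- Lexicographic comparison in coordinate `j`. -/
def Lt (z z' : Pt ι B) (j : ι) : Prop := z.1 j < z'.1 j ∨ (z.1 j = z'.1 j ∧ z.2 j < z'.2 j)

/-- Equality in coordinate `j`. -/
def EqAt (z z' : Pt ι B) (j : ι) : Prop := z.1 j = z'.1 j ∧ z.2 j = z'.2 j

/-- The conclusion: two points of `G` differing in exactly `d` coordinates with alternating
signs. -/
def Concl (d : ℕ) (G : Finset (Pt ι B)) : Prop :=
  ∃ p ∈ G, ∃ q ∈ G, ∃ S : Finset ι, S.card = d ∧ (∀ j, j ∉ S → EqAt p q j) ∧
    ∀ j ∈ S, (Even (S.filter (fun x => x < j)).card → Lt p q j) ∧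
      (¬ Even (S.filter (fun x => x < j)).card → Lt q p j)

lemma Sim.symm' {A : Finset ι} {z z' : Pt ι B} (h : Sim A z z') : Sim A z' z :=
  ⟨h.1.symm, fun j hj => (h.2 j hj).symm⟩

lemma lt_or_lt_of_not_eqAt {z z' : Pt ι B} {j : ι} (h : ¬ EqAt z z' j) (h2 : ¬ Lt z z' j) :
    Lt z' z j := by
  unfold EqAt at h
  unfold Lt at h2 ⊢
  push Not at h h2
  rcases lt_trichotomy (z.1 j) (z'.1 j) with h3 | h3 | h3
  · exact absurd h3 (not_lt.mpr h2.1)
  · right
    refine ⟨h3.symm, ?_⟩
    exact lt_of_le_of_ne (h2.2 h3) (fun h4 => h h3 h4.symm)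
  · exact Or.inl h3

lemma card_pair (X : Finset (Pt ι B)) (W1 W2 : Finset ι)
    (h : ∀ z ∈ X, ∀ z' ∈ X, (∀ j, j ∉ W1 → z.1 j = z'.1 j) → (∀ j, j ∉ W2 → z.2 j = z'.2 j) →
      z = z') :
    X.card * B ^ (W1.card + W2.card) ≤ B ^ (2 * Fintype.card ι) := by
  classical
  have h1 : X.card ≤ B ^ (Fintype.card ι - W1.card) * B ^ (Fintype.card ι - W2.card) := by
    have h2 : X.card ≤
        (Finset.univ : Finset (({j // j ∉ W1} → Fin B) × ({j // j ∉ W2} → Fin B))).card := by
      apply Finset.card_le_card_of_injOn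
        (fun z => ((fun j => z.1 j.1, fun j => z.2 j.1) :
          ({j // j ∉ W1} → Fin B) × ({j // j ∉ W2} → Fin B)))
      · intro z _
        simp
      · intro z hz z' hz' hzz
        have h3 := (Prod.mk.inj hzz).1
        have h4 := (Prod.mk.inj hzz).2
        exact h z hz z' hz' (fun j hj => congrFun h3 ⟨j, hj⟩) (fun j hj => congrFun h4 ⟨j, hj⟩)
    have h5 : ∀ W : Finset ι, Fintype.card {j // j ∉ W} = Fintype.card ι - W.card := by
      intro W
      rw [Fintype.card_subtype_compl]
      simp
    rw [Finset.card_univ, Fintype.card_prod, Fintype.card_fun, Fintype.card_fun, h5, h5,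
      Fintype.card_fin] at h2
    exact h2
  calc X.card * B ^ (W1.card + W2.card)
      ≤ B ^ (Fintype.card ι - W1.card) * B ^ (Fintype.card ι - W2.card) *
        B ^ (W1.card + W2.card) := Nat.mul_le_mul_right _ h1
    _ = B ^ (2 * Fintype.card ι) := by
        rw [← pow_add, ← pow_add]
        congr 1
        have := Finset.card_le_univ W1
        have := Finset.card_le_univ W2
        omega

lemma path (G : Finset (Pt ι B)) (K : ℕ) (A : Finset ι)
    (hinv : ∀ z ∈ G, ∀ z' ∈ G, Sim A z z' → z = z') (τ : ι → Prop)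
    (Q : Finset (Pt ι B)) (hQ : Q ⊆ G) (J : Finset ι) :
    Disjoint J A →
    (∀ j ∈ J, ∀ G' : Finset (Pt ι B), G' ⊆ G →
      (∀ z ∈ G', ∀ z' ∈ G', Sim (insert j A) z z' → z = z') → K * G'.card ≤ G.card) →
    ∃ Q' : Finset (Pt ι B), Q' ⊆ Q ∧ K * Q.card ≤ K * Q'.card + J.card * G.card ∧
      ∀ z ∈ Q', ∃ z0 ∈ Q, Sim (A ∪ J) z0 z ∧
        ∀ j ∈ J, (τ j → z0.2 j < z.2 j) ∧ (¬ τ j → z.2 j < z0.2 j) := by
  classical
  induction J using Finset.induction_on with
  | empty =>
    intro _ _
    refine ⟨Q, le_refl _, by simp, ?_⟩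
    intro z hz
    exact ⟨z, hz, ⟨rfl, fun _ _ => rfl⟩, by simp⟩
  | insert j J hj ih =>
    intro hdis hns
    have hjA : j ∉ A := fun h => (Finset.disjoint_left.mp hdis) (Finset.mem_insert_self j J) h
    have hdis' : Disjoint J A :=
      Finset.disjoint_of_subset_left (Finset.subset_insert j J) hdis
    obtain ⟨Q', hQ', hcard, hprop⟩ := ih hdis' (fun i hi => hns i (Finset.mem_insert_of_mem hi))
    let R : Pt ι B → Prop := fun z => ∃ z1 ∈ Q', Sim (insert j A) z1 z ∧
      (τ j → z1.2 j < z.2 j) ∧ (¬ τ j → z.2 j < z1.2 j)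
    refine ⟨Q'.filter R, (Finset.filter_subset _ _).trans hQ', ?_, ?_⟩
    · have h1 := Finset.card_filter_add_card_filter_not (s := Q') R
      have h2 : K * (Q'.filter (fun z => ¬ R z)).card ≤ G.card := by
        apply hns j (Finset.mem_insert_self j J)
        · exact ((Finset.filter_subset _ _).trans hQ').trans hQ
        · intro z hz z' hz' hs
          rw [Finset.mem_filter] at hz hz'
          apply hinv z (hQ (hQ' hz.1)) z' (hQ (hQ' hz'.1))
          refine ⟨hs.1, fun x hx => ?_⟩
          by_cases hxj : x = j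
          · subst hxj
            have h3 : ¬ (z.2 x < z'.2 x) := by
              intro hlt
              by_cases hτ : τ x
              · exact hz'.2 ⟨z, hz.1, hs, fun _ => hlt, fun h => absurd hτ h⟩
              · exact hz.2 ⟨z', hz'.1, hs.symm', fun h => absurd h hτ, fun _ => hlt⟩
            have h4 : ¬ (z'.2 x < z.2 x) := by
              intro hlt
              by_cases hτ : τ x
              · exact hz.2 ⟨z', hz'.1, hs.symm', fun _ => hlt, fun h => absurd hτ h⟩
              · exact hz'.2 ⟨z, hz.1, hs, fun h => absurd h hτ, fun _ => hlt⟩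
            exact le_antisymm (not_lt.mp h4) (not_lt.mp h3)
          · exact hs.2 x (by
              rw [Finset.mem_insert]
              push Not
              exact ⟨hxj, hx⟩)
      rw [Finset.card_insert_of_notMem hj]
      have h5 : K * Q'.card = K * (Q'.filter R).card + K * (Q'.filter (fun z => ¬ R z)).card := by
        rw [← h1]
        ring
      have h6 : (J.card + 1) * G.card = J.card * G.card + G.card := by ring
      omega
    · intro z hz
      rw [Finset.mem_filter] at hz
      obtain ⟨hzQ, z1, hz1, hs1, hsg1⟩ := hz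
      obtain ⟨z0, hz0, hs0, hsg0⟩ := hprop z1 hz1
      refine ⟨z0, hz0, ⟨hs0.1.trans hs1.1, ?_⟩, ?_⟩
      · intro x hx
        rw [Finset.mem_union, Finset.mem_insert] at hx
        push Not at hx
        rw [hs0.2 x (by rw [Finset.mem_union]; push Not; exact ⟨hx.1, hx.2.2⟩)]
        exact hs1.2 x (by rw [Finset.mem_insert]; push Not; exact ⟨hx.2.1, hx.1⟩)
      · intro x hx
        rw [Finset.mem_insert] at hx
        by_cases hxj : x = j
        · subst hxj
          have h1 : z0.2 x = z1.2 x := hs0.2 x (by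
            rw [Finset.mem_union]; push Not; exact ⟨hjA, hj⟩)
          rw [h1]
          exact hsg1
        · have hxJ : x ∈ J := by
            rcases hx with h | h
            · exact absurd h hxj
            · exact h
          have hxA : x ∉ A := Finset.disjoint_left.mp hdis' hxJ
          have h1 : z1.2 x = z.2 x := hs1.2 x (by
            rw [Finset.mem_insert]; push Not; exact ⟨hxj, hxA⟩)
          rw [← h1]
          exact hsg0 x hxJ

lemma bad_card (Bad : Finset (Pt ι B)) (E : Finset ι) (m : ℕ)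
    (hbad : ∀ q ∈ Bad, ∀ p ∈ Bad, (∀ j, j ∉ E → EqAt p q j) →
      m ≤ (E.filter (fun j => p.1 j = q.1 j)).card) :
    Bad.card * B ^ m ≤ 2 ^ E.card * B ^ (2 * Fintype.card ι) := by
  classical
  rcases Bad.eq_empty_or_nonempty with h0 | ⟨q0, hq0⟩
  · subst h0
    simp
  let φ : Pt ι B → ({j // j ∉ E} → Fin B × Fin B) := fun z j => (z.1 j.1, z.2 j.1)
  have hφ : ∀ z z' : Pt ι B, φ z = φ z' ↔ ∀ j, j ∉ E → EqAt z z' j := by
    intro z z'
    constructor
    · intro h j hj
      have := congrFun h ⟨j, hj⟩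
      exact ⟨(Prod.mk.inj this).1, (Prod.mk.inj this).2⟩
    · intro h
      funext j
      exact Prod.ext (h j.1 j.2).1 (h j.1 j.2).2
  have hs : ∀ o : ({j // j ∉ E} → Fin B × Fin B), ∃ p : Pt ι B,
      (∃ p' ∈ Bad, φ p' = o) → p ∈ Bad ∧ φ p = o := by
    intro o
    by_cases h : ∃ p' ∈ Bad, φ p' = o
    · obtain ⟨p', h1, h2⟩ := h
      exact ⟨p', fun _ => ⟨h1, h2⟩⟩
    · exact ⟨q0, fun h' => absurd h' h⟩
  choose s hs using hs
  let X : Finset ι → Finset (Pt ι B) := fun W => Bad.filter (fun q => ∀ j ∈ W, (s (φ q)).1 j = q.1 j)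
  have hcov : Bad ⊆ (E.powersetCard m).biUnion X := by
    intro q hq
    have h1 := hs (φ q) ⟨q, hq, rfl⟩
    have h2 := hbad q hq (s (φ q)) h1.1 ((hφ _ _).mp h1.2)
    obtain ⟨W, hW, hWc⟩ := Finset.exists_subset_card_eq h2
    rw [Finset.mem_biUnion]
    refine ⟨W, ?_, ?_⟩
    · rw [Finset.mem_powersetCard]
      exact ⟨hW.trans (Finset.filter_subset _ _), hWc⟩
    · simp only [X, Finset.mem_filter]
      exact ⟨hq, fun j hj => (Finset.mem_filter.mp (hW hj)).2⟩
  have hX : ∀ W ∈ E.powersetCard m, (X W).card * B ^ m ≤ B ^ (2 * Fintype.card ι) := by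
    intro W hW
    rw [Finset.mem_powersetCard] at hW
    have h1 := card_pair (X W) W ∅ (by
      intro z hz z' hz' h1 h2
      simp only [X, Finset.mem_filter] at hz hz'
      have h3 : φ z = φ z' := by
        rw [hφ]
        intro j hj
        exact ⟨h1 j (fun h => hj (hW.1 h)), h2 j (by simp)⟩
      apply Prod.ext
      · funext j
        by_cases hj : j ∈ W
        · rw [← hz.2 j hj, ← hz'.2 j hj, h3]
        · exact h1 j hj
      · funext j
        exact h2 j (by simp))
    rw [hW.2] at h1
    simpa using h1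
  calc Bad.card * B ^ m ≤ ((E.powersetCard m).biUnion X).card * B ^ m :=
        Nat.mul_le_mul_right _ (Finset.card_le_card hcov)
    _ ≤ (∑ W ∈ E.powersetCard m, (X W).card) * B ^ m :=
        Nat.mul_le_mul_right _ Finset.card_biUnion_le
    _ = ∑ W ∈ E.powersetCard m, (X W).card * B ^ m := Finset.sum_mul _ _ _
    _ ≤ ∑ _W ∈ E.powersetCard m, B ^ (2 * Fintype.card ι) := Finset.sum_le_sum hX
    _ = (E.powersetCard m).card * B ^ (2 * Fintype.card ι) := by
        rw [Finset.sum_const, smul_eq_mul]
    _ ≤ 2 ^ E.card * B ^ (2 * Fintype.card ι) := by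
        apply Nat.mul_le_mul_right
        rw [← Finset.card_powerset]
        exact Finset.card_le_card (fun W hW => Finset.mem_powerset.mpr (Finset.mem_powersetCard.mp hW).1)

/-- The completion property of the levels `Lk ⊆ Lk'`. -/
def Completes (Lk Lk' : Set ι) (a d : ℕ) : Prop :=
  ∀ M : Finset ι, (∀ x ∈ M, x ∈ Lk) → M.card ≤ a → ∀ s : ι → Prop, ∃ J : Finset ι,
    (∀ b ∈ J, b ∈ Lk' ∧ b ∉ Lk) ∧ (M ∪ J).card = d ∧
      ∀ x ∈ M, (s x ↔ Even ((M ∪ J).filter (fun y => y < x)).card)

theorem terminal (g d a K : ℕ) (E : Finset ι) (cls : ι → Fin (g + 1)) (G : Finset (Pt ι B))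
    (Lk Lk' : Set ι) (hE : ∀ x ∈ E, x ∈ Lk) (hEa : E.card ≤ a)
    (hL : Completes Lk Lk' a d)
    (hinv : ∀ i, ∀ z ∈ G, ∀ z' ∈ G, Sim (E.filter (fun x => cls x = i)) z z' → z = z')
    (hns : ∀ i, ∀ j ∈ Lk', j ∉ E → ∀ G' : Finset (Pt ι B), G' ⊆ G →
      (∀ z ∈ G', ∀ z' ∈ G', Sim (insert j (E.filter (fun x => cls x = i))) z z' → z = z') →
      K * G'.card ≤ G.card)
    (hK : 2 * ((g + 1) * (2 ^ Fintype.card ι * 2 ^ Fintype.card ι)) * Fintype.card ι < K)
    (hG : 2 * 2 ^ a * B ^ (2 * Fintype.card ι) < G.card * B ^ (g + 1)) : Concl d G := by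
  classical
  set N := Fintype.card ι with hN
  let isBad : Pt ι B → Prop := fun q => ∀ p ∈ G, (∀ j, j ∉ E → EqAt p q j) →
    g + 1 ≤ (E.filter (fun j => p.1 j = q.1 j)).card
  have hbad : (G.filter isBad).card * B ^ (g + 1) ≤ 2 ^ E.card * B ^ (2 * N) := by
    apply bad_card
    intro q hq p hp hpq
    exact (Finset.mem_filter.mp hq).2 p (Finset.mem_filter.mp hp).1 hpq
  have hBpos : 0 < B ^ (g + 1) := by
    rcases Nat.eq_zero_or_pos (B ^ (g + 1)) with h | h
    · rw [h] at hG; omega
    · exact h
  have hbad2 : 2 * (G.filter isBad).card < G.card := by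
    have h1 : 2 ^ E.card ≤ 2 ^ a := Nat.pow_le_pow_right (by norm_num) hEa
    have h2 : 2 * (G.filter isBad).card * B ^ (g + 1) < G.card * B ^ (g + 1) := by
      calc 2 * (G.filter isBad).card * B ^ (g + 1)
          = 2 * ((G.filter isBad).card * B ^ (g + 1)) := by ring
        _ ≤ 2 * (2 ^ E.card * B ^ (2 * N)) := Nat.mul_le_mul_left _ hbad
        _ ≤ 2 * (2 ^ a * B ^ (2 * N)) :=
            Nat.mul_le_mul_left _ (Nat.mul_le_mul_right _ h1)
        _ = 2 * 2 ^ a * B ^ (2 * N) := by ring
        _ < _ := hG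
    exact lt_of_mul_lt_mul_right h2 (Nat.zero_le _)
  have hsplit := Finset.card_filter_add_card_filter_not (s := G) isBad
  -- data attached to each non-bad point
  have hdata : ∀ q : Pt ι B, ∃ (p : Pt ι B) (i : Fin (g + 1)) (M J : Finset ι),
      q ∈ G.filter (fun q => ¬ isBad q) →
        p ∈ G ∧ (∀ j, j ∉ E → EqAt p q j) ∧ (∀ j ∈ E, cls j = i → p.1 j ≠ q.1 j) ∧
        (∀ j, j ∈ M ↔ ¬ EqAt p q j) ∧ (∀ b ∈ J, b ∈ Lk' ∧ b ∉ Lk) ∧ (M ∪ J).card = d ∧
        ∀ x ∈ M, (Lt p q x ↔ Even ((M ∪ J).filter (fun y => y < x)).card) := by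
    intro q
    by_cases hq : q ∈ G.filter (fun q => ¬ isBad q)
    · have hq' := (Finset.mem_filter.mp hq).2
      simp only [isBad] at hq'
      push Not at hq'
      obtain ⟨p, hpG, hpE, hpc⟩ := hq'
      obtain ⟨i, hi⟩ : ∃ i : Fin (g + 1), i ∉ (E.filter (fun j => p.1 j = q.1 j)).image cls := by
        by_contra hcon
        push Not at hcon
        have h1 : (Finset.univ : Finset (Fin (g + 1))) ⊆
            (E.filter (fun j => p.1 j = q.1 j)).image cls := fun i _ => hcon i
        have h2 := Finset.card_le_card h1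
        rw [Finset.card_univ, Fintype.card_fin] at h2
        have h3 := h2.trans Finset.card_image_le
        omega
      let M : Finset ι := Finset.univ.filter (fun j => ¬ EqAt p q j)
      have hME : M ⊆ E := by
        intro j hj
        by_contra hjE
        exact (Finset.mem_filter.mp hj).2 (hpE j hjE)
      obtain ⟨J, hJ1, hJ2, hJ3⟩ := hL M (fun x hx => hE x (hME hx))
        ((Finset.card_le_card hME).trans hEa) (fun x => Lt p q x)
      refine ⟨p, i, M, J, fun _ => ⟨hpG, hpE, ?_, ?_, hJ1, hJ2, hJ3⟩⟩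
      · intro j hjE hji heq
        apply hi
        rw [Finset.mem_image]
        exact ⟨j, by rw [Finset.mem_filter]; exact ⟨hjE, heq⟩, hji⟩
      · intro j
        simp [M]
    · exact ⟨q, 0, ∅, ∅, fun h => absurd h hq⟩
  choose P I M J hdat using hdata
  -- popular value
  let key : Pt ι B → Fin (g + 1) × (Finset ι × Finset ι) := fun q => (I q, (M q, J q))
  obtain ⟨y, hy⟩ : ∃ y : Fin (g + 1) × (Finset ι × Finset ι), N * G.card <
      K * ((G.filter (fun q => ¬ isBad q)).filter (fun q => key q = y)).card := by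
    by_contra hcon
    push Not at hcon
    have h1 : (G.filter (fun q => ¬ isBad q)).card =
        ∑ y : Fin (g + 1) × (Finset ι × Finset ι),
          ((G.filter (fun q => ¬ isBad q)).filter (fun q => key q = y)).card :=
      Finset.card_eq_sum_card_fiberwise (fun q _ => Finset.mem_univ _)
    have h2 : K * (G.filter (fun q => ¬ isBad q)).card ≤
        ((g + 1) * (2 ^ N * 2 ^ N)) * (N * G.card) := by
      rw [h1, Finset.mul_sum]
      calc ∑ y : Fin (g + 1) × (Finset ι × Finset ι),
            K * ((G.filter (fun q => ¬ isBad q)).filter (fun q => key q = y)).card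
          ≤ ∑ _y : Fin (g + 1) × (Finset ι × Finset ι), N * G.card :=
            Finset.sum_le_sum (fun y _ => hcon y)
        _ = _ := by
            rw [Finset.sum_const, Finset.card_univ, smul_eq_mul, Fintype.card_prod,
              Fintype.card_prod, Fintype.card_fin, Fintype.card_finset]
    have h3 : G.card < 2 * (G.filter (fun q => ¬ isBad q)).card := by omega
    have h4 : 0 < G.card := by omega
    have h5 : K * G.card ≤ 2 * ((g + 1) * (2 ^ N * 2 ^ N)) * N * G.card := by
      calc K * G.card ≤ K * (2 * (G.filter (fun q => ¬ isBad q)).card) :=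
            Nat.mul_le_mul_left _ h3.le
        _ = 2 * (K * (G.filter (fun q => ¬ isBad q)).card) := by ring
        _ ≤ 2 * (((g + 1) * (2 ^ N * 2 ^ N)) * (N * G.card)) := Nat.mul_le_mul_left _ h2
        _ = _ := by ring
    have h6 := le_of_mul_le_mul_right h5 h4
    omega
  set Q := (G.filter (fun q => ¬ isBad q)).filter (fun q => key q = y) with hQdef
  have hQne : Q.Nonempty := by
    rw [← Finset.card_pos]
    rcases Nat.eq_zero_or_pos Q.card with h | h
    · rw [h] at hy; omega
    · exact h
  obtain ⟨q1, hq1⟩ := hQne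
  have hq1' := hdat q1 (Finset.mem_filter.mp hq1).1
  have hkey : ∀ q ∈ Q, I q = I q1 ∧ M q = M q1 ∧ J q = J q1 := by
    intro q hq
    have h1 := (Finset.mem_filter.mp hq).2
    have h2 := (Finset.mem_filter.mp hq1).2
    rw [← h2] at h1
    simp only [key, Prod.mk.injEq] at h1
    exact h1
  set i := I q1 with hi
  set M0 := M q1 with hM0
  set J0 := J q1 with hJ0
  have hJE : ∀ b ∈ J0, b ∉ E := fun b hb hbE => (hq1'.2.2.2.2.1 b hb).2 (hE b hbE)
  have hdisj : Disjoint J0 (E.filter (fun x => cls x = i)) := by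
    rw [Finset.disjoint_left]
    intro b hb hb2
    exact hJE b hb (Finset.mem_filter.mp hb2).1
  have hQG : Q ⊆ G := (Finset.filter_subset _ _).trans (Finset.filter_subset _ _)
  obtain ⟨Q', hQ'Q, hQ'c, hQ'p⟩ := path G K (E.filter (fun x => cls x = i)) (hinv i)
    (fun j => Even ((M0 ∪ J0).filter (fun y => y < j)).card) Q hQG J0 hdisj
    (fun j hj G' hG' h => hns i j (hq1'.2.2.2.2.1 j hj).1 (hJE j hj) G' hG' h)
  have hQ'ne : Q'.Nonempty := by
    rw [← Finset.card_pos]
    rcases Nat.eq_zero_or_pos Q'.card with h | h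
    · rw [h] at hQ'c
      have h1 : J0.card ≤ N := Finset.card_le_univ J0
      have h2 : J0.card * G.card ≤ N * G.card := Nat.mul_le_mul_right _ h1
      omega
    · exact h
  obtain ⟨zr, hzr⟩ := hQ'ne
  obtain ⟨z0, hz0, hsim, hsg⟩ := hQ'p zr hzr
  have hz0d := hdat z0 (Finset.mem_filter.mp hz0).1
  obtain ⟨hI, hM, hJ⟩ := hkey z0 hz0
  rw [hI, hM, hJ] at hz0d
  obtain ⟨hpG, hpE, hpi, hpM, hpJ, hpd, hps⟩ := hz0d
  have hME : ∀ x ∈ M0, x ∈ E := by
    intro x hx
    by_contra hxE
    exact (hpM x).mp hx (hpE x hxE)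
  -- coordinates of M0 not affected by the path, or top digits different
  have hcmp : ∀ x ∈ M0, (Lt (P z0) zr x ↔ Lt (P z0) z0 x) ∧ ¬ EqAt (P z0) zr x := by
    intro x hx
    have hxE := hME x hx
    have h1 : zr.1 x = z0.1 x := by rw [hsim.1]
    by_cases hxi : cls x = i
    · have h2 := hpi x hxE hxi
      refine ⟨?_, ?_⟩
      · unfold Lt
        rw [h1]
        constructor
        · rintro (h | h)
          · exact Or.inl h
          · exact absurd h.1 h2
        · rintro (h | h)
          · exact Or.inl h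
          · exact absurd h.1 h2
      · intro h
        apply h2
        rw [← h1]
        exact h.1
    · have h3 : z0.2 x = zr.2 x := hsim.2 x (by
        rw [Finset.mem_union]
        rintro (h | h)
        · exact hxi (Finset.mem_filter.mp h).2
        · exact hJE x h hxE)
      refine ⟨?_, ?_⟩
      · unfold Lt
        rw [h1, h3]
      · intro h
        apply (hpM x).mp hx
        unfold EqAt at h ⊢
        rw [h1, ← h3] at h
        exact h
  refine ⟨P z0, hpG, zr, hQG (hQ'Q hzr), M0 ∪ J0, hpd, ?_, ?_⟩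
  · intro j hj
    rw [Finset.mem_union] at hj
    push Not at hj
    have h1 : EqAt (P z0) z0 j := by
      by_contra h
      exact hj.1 ((hpM j).mpr h)
    have h2 : z0.2 j = zr.2 j := hsim.2 j (by
      rw [Finset.mem_union]
      rintro (h | h)
      · rw [Finset.mem_filter] at h
        exact hpi j h.1 h.2 h1.1
      · exact hj.2 h)
    refine ⟨?_, ?_⟩
    · rw [h1.1, hsim.1]
    · rw [h1.2, h2]
  · intro j hj
    rw [Finset.mem_union] at hj
    by_cases hjM : j ∈ M0
    · have h1 := hcmp j hjM
      have h2 := hps j hjM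
      refine ⟨fun hev => h1.1.mpr (h2.mpr hev), fun hodd => ?_⟩
      exact lt_or_lt_of_not_eqAt h1.2 (fun h => hodd (h2.mp (h1.1.mp h)))
    · have hjJ : j ∈ J0 := by
        rcases hj with h | h
        · exact absurd h hjM
        · exact h
      have h1 := hpE j (hJE j hjJ)
      have h2 : zr.1 j = z0.1 j := by rw [hsim.1]
      refine ⟨fun hev => ?_, fun hodd => ?_⟩
      · right
        refine ⟨by rw [h1.1, h2], ?_⟩
        rw [h1.2]
        exact (hsg j hjJ).1 hev
      · right
        refine ⟨by rw [h1.1, h2], ?_⟩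
        rw [h1.2]
        exact (hsg j hjJ).2 hodd

lemma Concl.mono {d : ℕ} {G G' : Finset (Pt ι B)} (h : G' ⊆ G) (hc : Concl d G') : Concl d G := by
  obtain ⟨p, hp, q, hq, hr⟩ := hc
  exact ⟨p, h hp, q, h hq, hr⟩

theorem main_induct (g d K : ℕ) (L : ℕ → Set ι) (hLmono : ∀ k, L k ⊆ L (k + 1))
    (hL : ∀ k ≤ g * (g + 1), Completes (L k) (L (k + 1)) (g * (g + 1)) d)
    (hK : 2 * ((g + 1) * (2 ^ Fintype.card ι * 2 ^ Fintype.card ι)) * Fintype.card ι < K)
    (n : ℕ) : ∀ (E : Finset ι) (cls : ι → Fin (g + 1)) (G : Finset (Pt ι B)),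
    E.card + n = g * (g + 1) + 1 → (∀ x ∈ E, x ∈ L E.card) →
    (∀ i, ∀ z ∈ G, ∀ z' ∈ G, Sim (E.filter (fun x => cls x = i)) z z' → z = z') →
    K ^ n * (2 * 2 ^ (g * (g + 1))) * B ^ (2 * Fintype.card ι) < G.card * B ^ (g + 1) →
    Concl d G := by
  classical
  have hbound : ∀ (E : Finset ι) (cls : ι → Fin (g + 1)) (G : Finset (Pt ι B)),
      (∀ i, ∀ z ∈ G, ∀ z' ∈ G, Sim (E.filter (fun x => cls x = i)) z z' → z = z') →
      B ^ (2 * Fintype.card ι) < G.card * B ^ (g + 1) → E.card ≤ g * (g + 1) := by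
    intro E cls G hinv hG
    by_contra hcon
    push Not at hcon
    have h1 : ∃ i : Fin (g + 1), g + 1 ≤ (E.filter (fun x => cls x = i)).card := by
      by_contra h2
      push Not at h2
      have h3 : E.card = ∑ i : Fin (g + 1), (E.filter (fun x => cls x = i)).card :=
        Finset.card_eq_sum_card_fiberwise (fun q _ => Finset.mem_univ _)
      have h4 : ∑ i : Fin (g + 1), (E.filter (fun x => cls x = i)).card ≤
          ∑ _i : Fin (g + 1), g := Finset.sum_le_sum (fun i _ => by have := h2 i; omega)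
      rw [Finset.sum_const, Finset.card_univ, Fintype.card_fin, smul_eq_mul] at h4
      have h5 : (g + 1) * g = g * (g + 1) := by ring
      omega
    obtain ⟨i, hi⟩ := h1
    have hBpos : 0 < B := by
      rcases Nat.eq_zero_or_pos B with h | h
      · subst h
        simp at hG
      · exact h
    have h2 := card_pair G ∅ (E.filter (fun x => cls x = i)) (by
      intro z hz z' hz' h3 h4
      exact hinv i z hz z' hz' ⟨funext (fun j => h3 j (by simp)), h4⟩)
    rw [Finset.card_empty, zero_add] at h2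
    have h3 : G.card * B ^ (g + 1) ≤ G.card * B ^ (E.filter (fun x => cls x = i)).card :=
      Nat.mul_le_mul_left _ (Nat.pow_le_pow_right hBpos hi)
    omega
  have hKpos : 0 < K := by omega
  induction n with
  | zero =>
    intro E cls G hcard hEL hinv hG
    exfalso
    have h1 : B ^ (2 * Fintype.card ι) ≤
        K ^ 0 * (2 * 2 ^ (g * (g + 1))) * B ^ (2 * Fintype.card ι) := by
      apply Nat.le_mul_of_pos_left
      positivity
    have h2 := hbound E cls G hinv (lt_of_le_of_lt h1 hG)
    omega
  | succ n ih =>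
    intro E cls G hcard hEL hinv hG
    by_cases hst : ∃ (i : Fin (g + 1)) (j : ι), j ∈ L (E.card + 1) ∧ j ∉ E ∧
        ∃ G' : Finset (Pt ι B), G' ⊆ G ∧
        (∀ z ∈ G', ∀ z' ∈ G', Sim (insert j (E.filter (fun x => cls x = i))) z z' → z = z') ∧
        G.card < K * G'.card
    · obtain ⟨i, j, hjL, hjE, G', hG'G, hG'inv, hG'c⟩ := hst
      apply Concl.mono hG'G
      have hc : (insert j E).card = E.card + 1 := Finset.card_insert_of_notMem hjE
      apply ih (insert j E) (Function.update cls j i) G'
      · rw [hc]; omega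
      · intro x hx
        rw [hc]
        rcases Finset.mem_insert.mp hx with h | h
        · rw [h]; exact hjL
        · exact hLmono _ (hEL x h)
      · intro i' z hz z' hz' hs
        by_cases hii : i' = i
        · subst hii
          have h1 : (insert j E).filter (fun x => Function.update cls j i' x = i') =
              insert j (E.filter (fun x => cls x = i')) := by
            ext x
            simp only [Finset.mem_filter, Finset.mem_insert]
            by_cases hxj : x = j
            · subst hxj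
              simp
            · simp [Function.update_of_ne hxj, hxj]
          rw [h1] at hs
          exact hG'inv z hz z' hz' hs
        · have h1 : (insert j E).filter (fun x => Function.update cls j i x = i') =
              E.filter (fun x => cls x = i') := by
            ext x
            simp only [Finset.mem_filter, Finset.mem_insert]
            by_cases hxj : x = j
            · subst hxj
              simp [hjE, Ne.symm hii]
            · simp [Function.update_of_ne hxj, hxj]
          rw [h1] at hs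
          exact hinv i' z (hG'G hz) z' (hG'G hz') hs
      · have h1 : K * (K ^ n * (2 * 2 ^ (g * (g + 1))) * B ^ (2 * Fintype.card ι)) <
            K * (G'.card * B ^ (g + 1)) := by
          calc K * (K ^ n * (2 * 2 ^ (g * (g + 1))) * B ^ (2 * Fintype.card ι))
              = K ^ (n + 1) * (2 * 2 ^ (g * (g + 1))) * B ^ (2 * Fintype.card ι) := by ring
            _ < G.card * B ^ (g + 1) := hG
            _ ≤ K * G'.card * B ^ (g + 1) := Nat.mul_le_mul_right _ hG'c.le
            _ = _ := by ring
        exact lt_of_mul_lt_mul_left h1 (Nat.zero_le _)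
    · push Not at hst
      apply terminal g d (g * (g + 1)) K E cls G (L E.card) (L (E.card + 1)) hEL (by omega)
        (hL _ (by omega)) hinv ?_ hK ?_
      · intro i j hj hjE G' hG'G h
        exact hst i j hj hjE G' hG'G h
      · refine lt_of_le_of_lt ?_ hG
        apply Nat.mul_le_mul_right
        exact Nat.le_mul_of_pos_left _ (by positivity)

/-- The grid theorem for an index set with a system of levels. -/
theorem grid (g d K : ℕ) (L : ℕ → Set ι) (hLmono : ∀ k, L k ⊆ L (k + 1))
    (hL : ∀ k ≤ g * (g + 1), Completes (L k) (L (k + 1)) (g * (g + 1)) d)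
    (hK : 2 * ((g + 1) * (2 ^ Fintype.card ι * 2 ^ Fintype.card ι)) * Fintype.card ι < K)
    (G : Finset (Pt ι B))
    (hG : K ^ (g * (g + 1) + 1) * (2 * 2 ^ (g * (g + 1))) * B ^ (2 * Fintype.card ι) <
      G.card * B ^ (g + 1)) : Concl d G := by
  apply main_induct g d K L hLmono hL hK (g * (g + 1) + 1) ∅ (fun _ => 0) G
  · simp
  · simp
  · intro i z _ z' _ hs
    apply Prod.ext hs.1
    funext j
    exact hs.2 j (by simp)
  · exact hG

end

end Pool.Agent.R103.Grid
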