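import Mathlib
import Pool.Agent.R103.Grid

/-!
A system of levels in `Fin (Y ^ (a + 1))` with the completion property, and the resulting form
of the grid theorem.
-/

namespace Pool.Agent.R103.Grid

open Finset

lemma complete_aux (q Y : ℕ) (hq : 0 < q) (hY : 2 ≤ Y) (s : ℕ → Prop) (M : Finset ℕ) :
    (∀ x ∈ M, 0 < x ∧ Y * q ∣ x) → ∃ (m : ℕ) (J : Finset ℕ), (m = 0 ∨ m ∈ M) ∧
      (∀ b ∈ J, ∃ x, (x = 0 ∨ x ∈ M) ∧ b = x + 1 * q) ∧ (∀ x ∈ M ∪ J, x ≤ m) ∧
      (M ∪ J).card ≤ 2 * M.card ∧
      ∀ x ∈ M, (s x ↔ Even ((M ∪ J).filter (fun y => y < x)).card) := by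
  classical
  induction M using Finset.induction_on_max with
  | empty =>
    intro _
    exact ⟨0, ∅, Or.inl rfl, by simp, by simp, by simp, by simp⟩
  | insert a M haM ih =>
    intro hM
    obtain ⟨m, J, hm, hJ, hle, hcard, hs⟩ := ih (fun x hx => hM x (Finset.mem_insert_of_mem hx))
    have ha := hM a (Finset.mem_insert_self a M)
    have hmdvd : Y * q ∣ m := by
      rcases hm with h | h
      · rw [h]; exact dvd_zero _
      · exact (hM m (Finset.mem_insert_of_mem h)).2
    have hma : m < a := by
      rcases hm with h | h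
      · rw [h]; exact ha.1
      · exact haM m h
    have hgap : m + Y * q ≤ a := by
      have h1 : Y * q ∣ a - m := Nat.dvd_sub ha.2 hmdvd
      have h2 := Nat.le_of_dvd (by omega) h1
      omega
    have hqY : 2 * q ≤ Y * q := Nat.mul_le_mul_right _ hY
    have haMJ : a ∉ M ∪ J := fun h => by
      have := hle a h
      omega
    have hMc : (insert a M).card = M.card + 1 :=
      Finset.card_insert_of_notMem (fun h => haMJ (Finset.mem_union_left _ h))
    by_cases hcase : s a ↔ Even (M ∪ J).card
    · refine ⟨a, J, Or.inr (Finset.mem_insert_self a M), ?_, ?_, ?_, ?_⟩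
      · intro b hb
        obtain ⟨x, hx, hbx⟩ := hJ b hb
        exact ⟨x, hx.imp id (fun h => Finset.mem_insert_of_mem h), hbx⟩
      · intro x hx
        rw [Finset.insert_union, Finset.mem_insert] at hx
        rcases hx with h | h
        · omega
        · have := hle x h
          omega
      · rw [Finset.insert_union, Finset.card_insert_of_notMem haMJ, hMc]
        omega
      · intro x hx
        rw [Finset.insert_union]
        rcases Finset.mem_insert.mp hx with h | h
        · subst h
          have h1 : (insert x (M ∪ J)).filter (fun y => y < x) = M ∪ J := by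
            ext y
            simp only [Finset.mem_filter, Finset.mem_insert]
            constructor
            · rintro ⟨h1 | h1, h2⟩
              · omega
              · exact h1
            · intro h1
              have := hle y h1
              exact ⟨Or.inr h1, by omega⟩
          rw [h1]
          exact hcase
        · have h1 : (insert a (M ∪ J)).filter (fun y => y < x) =
              (M ∪ J).filter (fun y => y < x) := by
            have hxa := haM x h
            ext y
            simp only [Finset.mem_filter, Finset.mem_insert]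
            constructor
            · rintro ⟨h1 | h1, h2⟩
              · omega
              · exact ⟨h1, h2⟩
            · rintro ⟨h1, h2⟩
              exact ⟨Or.inr h1, h2⟩
          rw [h1]
          exact hs x h
    · have hbnot : m + 1 * q ∉ M ∪ J := fun h => by
        have := hle _ h
        omega
      have hanot : a ∉ insert (m + 1 * q) (M ∪ J) := by
        rw [Finset.mem_insert]
        rintro (h | h)
        · omega
        · exact haMJ h
      have hunion : insert a M ∪ insert (m + 1 * q) J = insert a (insert (m + 1 * q) (M ∪ J)) := by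
        rw [Finset.insert_union, Finset.union_insert]
      refine ⟨a, insert (m + 1 * q) J, Or.inr (Finset.mem_insert_self a M), ?_, ?_, ?_, ?_⟩
      · intro b hb
        rcases Finset.mem_insert.mp hb with h | h
        · exact ⟨m, hm.imp id (fun h => Finset.mem_insert_of_mem h), h⟩
        · obtain ⟨x, hx, hbx⟩ := hJ b h
          exact ⟨x, hx.imp id (fun h => Finset.mem_insert_of_mem h), hbx⟩
      · intro x hx
        rw [hunion, Finset.mem_insert, Finset.mem_insert] at hx
        rcases hx with h | h | h
        · omega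
        · omega
        · have := hle x h
          omega
      · rw [hunion, Finset.card_insert_of_notMem hanot, Finset.card_insert_of_notMem hbnot, hMc]
        omega
      · intro x hx
        rw [hunion]
        rcases Finset.mem_insert.mp hx with h | h
        · subst h
          have h1 : (insert x (insert (m + 1 * q) (M ∪ J))).filter (fun y => y < x) =
              insert (m + 1 * q) (M ∪ J) := by
            ext y
            simp only [Finset.mem_filter, Finset.mem_insert]
            constructor
            · rintro ⟨h1 | h1, h2⟩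
              · omega
              · exact h1
            · intro h1
              refine ⟨Or.inr h1, ?_⟩
              rcases h1 with h1 | h1
              · omega
              · have := hle y h1
                omega
          rw [h1, Finset.card_insert_of_notMem hbnot, Nat.even_add_one]
          tauto
        · have h1 : (insert a (insert (m + 1 * q) (M ∪ J))).filter (fun y => y < x) =
              (M ∪ J).filter (fun y => y < x) := by
            have hxa := haM x h
            have hxm := hle x (Finset.mem_union_left _ h)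
            ext y
            simp only [Finset.mem_filter, Finset.mem_insert]
            constructor
            · rintro ⟨h1 | h1 | h1, h2⟩
              · omega
              · omega
              · exact ⟨h1, h2⟩
            · rintro ⟨h1, h2⟩
              exact ⟨Or.inr (Or.inr h1), h2⟩
          rw [h1]
          exact hs x h

lemma complete_nat (q Y d : ℕ) (hq : 0 < q) (hY : 2 ≤ Y) (s : ℕ → Prop) (M : Finset ℕ)
    (hM : ∀ x ∈ M, 0 < x ∧ Y * q ∣ x) (hd : 2 * M.card ≤ d) (hdY : d < Y) :
    ∃ J : Finset ℕ, (∀ b ∈ J, ∃ x t, (x = 0 ∨ x ∈ M) ∧ 1 ≤ t ∧ t < Y ∧ b = x + t * q) ∧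
      (M ∪ J).card = d ∧
      ∀ x ∈ M, (s x ↔ Even ((M ∪ J).filter (fun y => y < x)).card) := by
  classical
  obtain ⟨m, J, hm, hJ, hle, hcard, hs⟩ := complete_aux q Y hq hY s M hM
  let I : Finset ℕ := (Finset.range (d - (M ∪ J).card)).image (fun t => m + (t + 1) * q)
  have hI : ∀ b ∈ I, m < b := by
    intro b hb
    obtain ⟨t, _, rfl⟩ := Finset.mem_image.mp hb
    have : 0 < (t + 1) * q := by positivity
    omega
  have hIc : I.card = d - (M ∪ J).card := by
    rw [Finset.card_image_of_injective, Finset.card_range]
    intro t t' htt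
    have h1 : (t + 1) * q = (t' + 1) * q := by
      have : m + (t + 1) * q = m + (t' + 1) * q := htt
      omega
    have := Nat.eq_of_mul_eq_mul_right hq h1
    omega
  have hdisj : Disjoint (M ∪ J) I := by
    rw [Finset.disjoint_left]
    intro x hx hxI
    have h1 := hle x hx
    have h2 := hI x hxI
    omega
  refine ⟨J ∪ I, ?_, ?_, ?_⟩
  · intro b hb
    rcases Finset.mem_union.mp hb with h | h
    · obtain ⟨x, hx, hbx⟩ := hJ b h
      exact ⟨x, 1, hx, le_refl _, by omega, hbx⟩
    · obtain ⟨t, ht, rfl⟩ := Finset.mem_image.mp h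
      rw [Finset.mem_range] at ht
      exact ⟨m, t + 1, hm, by omega, by omega, rfl⟩
  · rw [← Finset.union_assoc, Finset.card_union_of_disjoint hdisj, hIc]
    omega
  · intro x hx
    have h1 : (M ∪ (J ∪ I)).filter (fun y => y < x) = (M ∪ J).filter (fun y => y < x) := by
      have hxm := hle x (Finset.mem_union_left _ hx)
      rw [← Finset.union_assoc]
      ext y
      simp only [Finset.mem_filter]
      constructor
      · rintro ⟨h1, h2⟩
        rcases Finset.mem_union.mp h1 with h | h
        · exact ⟨h, h2⟩
        · have := hI y h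
          omega
      · rintro ⟨h1, h2⟩
        exact ⟨Finset.mem_union_left _ h1, h2⟩
    rw [h1]
    exact hs x hx

/-- The levels in `Fin (Y ^ (a + 1))`. -/
def Lev (Y a k : ℕ) : Set (Fin (Y ^ (a + 1))) :=
  {j | 0 < (j : ℕ) ∧ Y ^ (a + 1 - k) ∣ (j : ℕ)}

lemma Lev_mono (Y a k : ℕ) : Lev Y a k ⊆ Lev Y a (k + 1) := by
  intro j hj
  exact ⟨hj.1, dvd_trans (pow_dvd_pow Y (by omega)) hj.2⟩

lemma Lev_completes (Y a d k : ℕ) (hk : k ≤ a) (hY : 2 ≤ Y) (hd : 2 * a ≤ d) (hdY : d < Y) :
    Completes (Lev Y a k) (Lev Y a (k + 1)) a d := by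
  classical
  intro M hM hMa s
  set q := Y ^ (a - k) with hqdef
  have hq : 0 < q := by positivity
  have hYq : Y * q = Y ^ (a + 1 - k) := by
    rw [hqdef, ← pow_succ']
    congr 1
    omega
  have hYqD : Y * q ∣ Y ^ (a + 1) := by
    rw [hYq]
    exact pow_dvd_pow Y (by omega)
  have hDpos : 0 < Y ^ (a + 1) := by positivity
  have hM' : ∀ x ∈ M.map Fin.valEmbedding, 0 < x ∧ Y * q ∣ x := by
    intro x hx
    obtain ⟨j, hj, rfl⟩ := Finset.mem_map.mp hx
    have := hM j hj
    rw [hYq]
    exact this
  obtain ⟨J', hJ', hcard, hs⟩ := complete_nat q Y d hq hY (fun x => ∃ h : x < Y ^ (a + 1), s ⟨x, h⟩)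
    (M.map Fin.valEmbedding) hM' (by rw [Finset.card_map]; omega) hdY
  have hJlt : ∀ b ∈ J', b < Y ^ (a + 1) ∧ 0 < b ∧ q ∣ b ∧ ¬ Y * q ∣ b := by
    intro b hb
    obtain ⟨x, t, hx, ht1, htY, rfl⟩ := hJ' b hb
    have hx1 : x < Y ^ (a + 1) ∧ Y * q ∣ x := by
      rcases hx with h | h
      · rw [h]; exact ⟨hDpos, dvd_zero _⟩
      · refine ⟨?_, (hM' x h).2⟩
        obtain ⟨j, _, rfl⟩ := Finset.mem_map.mp h
        exact j.2
    have h1 : x + Y * q ≤ Y ^ (a + 1) := by
      have h2 : Y * q ∣ Y ^ (a + 1) - x := Nat.dvd_sub hYqD hx1.2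
      have h3 := Nat.le_of_dvd (by omega) h2
      omega
    have h2 : t * q < Y * q := Nat.mul_lt_mul_of_pos_right htY hq
    have h3 : 0 < t * q := by positivity
    refine ⟨by omega, by omega, ?_, ?_⟩
    · exact dvd_add (dvd_trans (Dvd.intro_left Y rfl) hx1.2) (Dvd.intro_left t rfl)
    · intro h4
      have h5 : Y * q ∣ t * q := (Nat.dvd_add_right hx1.2).mp h4
      have h6 := Nat.le_of_dvd h3 h5
      omega
  let J : Finset (Fin (Y ^ (a + 1))) := Finset.univ.filter (fun j => (j : ℕ) ∈ J')
  have hmap : (M ∪ J).map Fin.valEmbedding = M.map Fin.valEmbedding ∪ J' := by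
    ext x
    simp only [Finset.mem_map, Finset.mem_union, Fin.valEmbedding_apply, J, Finset.mem_filter,
      Finset.mem_univ, true_and]
    constructor
    · rintro ⟨j, h1 | h1, rfl⟩
      · exact Or.inl ⟨j, h1, rfl⟩
      · exact Or.inr h1
    · rintro (⟨j, h1, rfl⟩ | h1)
      · exact ⟨j, Or.inl h1, rfl⟩
      · exact ⟨⟨x, (hJlt x h1).1⟩, Or.inr h1, rfl⟩
  refine ⟨J, ?_, ?_, ?_⟩
  · intro b hb
    have hb' := hJlt (b : ℕ) (Finset.mem_filter.mp hb).2
    refine ⟨⟨hb'.2.1, ?_⟩, ?_⟩
    · have : a + 1 - (k + 1) = a - k := by omega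
      rw [this]
      exact hb'.2.2.1
    · intro h
      apply hb'.2.2.2
      rw [hYq]
      exact h.2
  · rw [← hcard, ← hmap, Finset.card_map]
  · intro x hx
    have h1 := hs (x : ℕ) (by
      rw [Finset.mem_map]
      exact ⟨x, hx, rfl⟩)
    rw [← hmap, Finset.filter_map, Finset.card_map] at h1
    have h2 : (∃ h : (x : ℕ) < Y ^ (a + 1), s ⟨(x : ℕ), h⟩) ↔ s x := by
      constructor
      · rintro ⟨_, h⟩
        exact h
      · intro h
        exact ⟨x.2, h⟩
    rw [h2] at h1
    exact h1

/-- The grid theorem: for every `g` there are `D`, `d ≥ 1` even, and `K` such that for every `B`,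
every set of more than `K * B ^ (2 * D) / B ^ (g + 1)` points of the two-digit grid with `D`
coordinates contains two points differing in exactly `d` coordinates with alternating signs. -/
theorem grid_fin (g : ℕ) : ∃ D d K : ℕ, 0 < D ∧ 0 < d ∧ Even d ∧
    ∀ (B : ℕ) (G : Finset (Pt (Fin D) B)), K * B ^ (2 * D) < G.card * B ^ (g + 1) →
      Concl d G := by
  set a := g * (g + 1) with ha
  set d := 2 * a + 2 with hd
  set Y := d + 1 with hY
  set D := Y ^ (a + 1) with hD
  set K := 2 * ((g + 1) * (2 ^ D * 2 ^ D)) * D + 1 with hK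
  refine ⟨D, d, K ^ (a + 1) * (2 * 2 ^ a), by positivity, by omega, ⟨a + 1, by omega⟩, ?_⟩
  intro B G hG
  apply grid g d K (Lev Y a) (Lev_mono Y a)
  · intro k hk
    exact Lev_completes Y a d k hk (by omega) (by omega) (by omega)
  · rw [Fintype.card_fin]
    exact Nat.lt_succ_self _
  · rw [Fintype.card_fin]
    exact hG

end Pool.Agent.R103.Grid
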