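import Mathlib

/-!
Patterns formed by pairs of subsets of `{0, ..., n - 1}` (in the natural order), and the extremal
function of families without a given pattern.
-/

namespace Pool.Agent.R103.Pattern

open Finset

/-- `A` and `B` form the pattern `P` of order `t` (`true` stands for plus, `false` for minus):
the symmetric difference of `A` and `B` has `t` elements `j_1 < ... < j_t`, and `P i` is plus
exactly when `j_i` lies in `A \ B`. -/
def Forms {n t : ℕ} (P : Fin t → Bool) (A B : Finset (Fin n)) : Prop :=
  ∃ f : Fin t → Fin n, StrictMono f ∧ (∀ x, x ∈ symmDiff A B ↔ ∃ i, f i = x) ∧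
    ∀ i, P i = true ↔ f i ∈ A \ B

/-- No two members of the family form the pattern `P`. -/
def PatternFree {n t : ℕ} (P : Fin t → Bool) (𝒜 : Finset (Finset (Fin n))) : Prop :=
  ∀ A ∈ 𝒜, ∀ B ∈ 𝒜, ¬ Forms P A B

/-- A pattern is balanced if it has positive order and as many plus signs as minus signs. -/
def Balanced {t : ℕ} (P : Fin t → Bool) : Prop :=
  0 < t ∧ (Finset.univ.filter (fun i => P i = true)).card =
    (Finset.univ.filter (fun i => P i = false)).card

/-- `f(n,k,P)`: the largest size of a `P`-free family of `k`-element subsets of an `n`-set. -/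
noncomputable def maxFree (n k : ℕ) {t : ℕ} (P : Fin t → Bool) : ℕ :=
  sSup {m | ∃ 𝒜 : Finset (Finset (Fin n)), (∀ A ∈ 𝒜, A.card = k) ∧ PatternFree P 𝒜 ∧
    𝒜.card = m}

/-- `δ(n,k,P) = f(n,k,P) / C(n,k)`. -/
noncomputable def density (n k : ℕ) {t : ℕ} (P : Fin t → Bool) : ℝ :=
  (maxFree n k P : ℝ) / (n.choose k : ℝ)

/-- The pattern plus, minus, minus, plus, plus, minus, minus, plus, ... of order `t`. -/
def pat (t : ℕ) : Fin t → Bool := fun i => decide ((i : ℕ) % 4 = 0 ∨ (i : ℕ) % 4 = 3)

end Pool.Agent.R103.Pattern
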