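import Mathlib
import Pool.Agent.R103.Levels
import Pool.Agent.R103.Pattern

/-!
From the grid to the middle layer.
-/

namespace Pool.Agent.R103.Layer

open Finset Pool.Agent.R103.Grid Pool.Agent.R103.Pattern

section

variable {D B : ℕ}

/-- Position of the pair of digits `w` in block `b`. -/
def pos (b : Fin (4 * D)) (w : Fin B × Fin B) : Fin (4 * D * (B * B)) :=
  finProdFinEquiv (b, finProdFinEquiv w)

lemma pos_val (b : Fin (4 * D)) (w : Fin B × Fin B) :
    (pos b w : ℕ) = ((w.2 : ℕ) + B * (w.1 : ℕ)) + B * B * (b : ℕ) := by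
  simp [pos, finProdFinEquiv]

lemma pos_inj {b b' : Fin (4 * D)} {w w' : Fin B × Fin B} (h : pos b w = pos b' w') :
    b = b' ∧ w = w' := by
  unfold pos at h
  have h1 := finProdFinEquiv.injective h
  rw [Prod.mk.injEq] at h1
  exact ⟨h1.1, finProdFinEquiv.injective h1.2⟩

lemma pos_lt_block {b b' : Fin (4 * D)} (w w' : Fin B × Fin B) (h : b < b') :
    pos b w < pos b' w' := by
  rw [Fin.lt_def, pos_val, pos_val]
  have h1 : (w.2 : ℕ) + B * (w.1 : ℕ) < B * B := (finProdFinEquiv w).2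
  have h2 : (b : ℕ) + 1 ≤ (b' : ℕ) := h
  calc (w.2 : ℕ) + B * (w.1 : ℕ) + B * B * (b : ℕ) < B * B + B * B * (b : ℕ) := by omega
    _ = B * B * ((b : ℕ) + 1) := by ring
    _ ≤ B * B * (b' : ℕ) := Nat.mul_le_mul_left _ h2
    _ ≤ _ := by omega

lemma pos_lt_digit (b : Fin (4 * D)) {w w' : Fin B × Fin B}
    (h : w.1 < w'.1 ∨ (w.1 = w'.1 ∧ w.2 < w'.2)) : pos b w < pos b w' := by
  rw [Fin.lt_def, pos_val, pos_val]
  rcases h with h | ⟨h1, h2⟩
  · have h2 : (w.1 : ℕ) + 1 ≤ (w'.1 : ℕ) := h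
    have h3 : B * ((w.1 : ℕ) + 1) ≤ B * (w'.1 : ℕ) := Nat.mul_le_mul_left _ h2
    have h4 := w.2.2
    have h5 : B * ((w.1 : ℕ) + 1) = B * (w.1 : ℕ) + B := by ring
    omega
  · have h3 : (w.2 : ℕ) < (w'.2 : ℕ) := h2
    rw [h1]
    omega

/-- The set of positions selected by the grid point `z` along the blocks `e`. -/
def X (e : Fin D → Fin (4 * D)) (z : Pt (Fin D) B) : Finset (Fin (4 * D * (B * B))) :=
  Finset.univ.image (fun i => pos (e i) (z.1 i, z.2 i))

lemma mem_X {e : Fin D → Fin (4 * D)} {z : Pt (Fin D) B} {x : Fin (4 * D * (B * B))} :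
    x ∈ X e z ↔ ∃ i, pos (e i) (z.1 i, z.2 i) = x := by
  simp [X]

lemma X_card {e : Fin D → Fin (4 * D)} (he : StrictMono e) (z : Pt (Fin D) B) :
    (X e z).card = D := by
  unfold X
  rw [Finset.card_image_of_injective, Finset.card_univ, Fintype.card_fin]
  intro i j hij
  exact he.injective (pos_inj hij).1

lemma rank_eq {S : Finset (Fin D)} {d : ℕ} (hS : S.card = d) (i : Fin d) :
    (S.filter (fun x => x < S.orderEmbOfFin hS i)).card = (i : ℕ) := by
  have h1 : S.filter (fun x => x < S.orderEmbOfFin hS i) =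
      (Finset.Iio i).map (S.orderEmbOfFin hS).toEmbedding := by
    ext x
    simp only [Finset.mem_filter, Finset.mem_map, Finset.mem_Iio]
    constructor
    · rintro ⟨hx, hlt⟩
      have hx' : x ∈ Set.range (S.orderEmbOfFin hS) := by
        rw [Finset.range_orderEmbOfFin]
        exact hx
      obtain ⟨j, hj⟩ := hx'
      refine ⟨j, ?_, hj⟩
      rw [← hj] at hlt
      exact (S.orderEmbOfFin hS).lt_iff_lt.mp hlt
    · rintro ⟨j, hj, rfl⟩
      exact ⟨S.orderEmbOfFin_mem hS j, (S.orderEmbOfFin hS).lt_iff_lt.mpr hj⟩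
  rw [h1, Finset.card_map, Fin.card_Iio]

/-- An alternating pair of grid points gives a pair of sets forming the pattern. -/
lemma forms_of_concl {e : Fin D → Fin (4 * D)} (he : StrictMono e) {d : ℕ}
    {A A' : Finset (Fin (4 * D * (B * B)))} {p q : Pt (Fin D) B}
    (hpA : X e p ⊆ A) (hqA : X e q ⊆ A') (hT : A \ X e p = A' \ X e q)
    {S : Finset (Fin D)} (hS : S.card = d) (heq : ∀ j, j ∉ S → EqAt p q j)
    (halt : ∀ j ∈ S, (Even (S.filter (fun x => x < j)).card → Lt p q j) ∧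
      (¬ Even (S.filter (fun x => x < j)).card → Lt q p j)) :
    Forms (pat (2 * d)) A A' := by
  classical
  have hne : ∀ j ∈ S, (p.1 j, p.2 j) ≠ (q.1 j, q.2 j) := by
    intro j hj h
    rw [Prod.mk.injEq] at h
    have h1 : Lt p q j ∨ Lt q p j := by
      by_cases hev : Even (S.filter (fun x => x < j)).card
      · exact Or.inl ((halt j hj).1 hev)
      · exact Or.inr ((halt j hj).2 hev)
    unfold Lt at h1
    rw [h.1, h.2] at h1
    simp at h1
  have hp : ∀ j ∈ S, pos (e j) (p.1 j, p.2 j) ∈ A \ A' := by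
    intro j hj
    have h1 : pos (e j) (p.1 j, p.2 j) ∈ X e p := mem_X.mpr ⟨j, rfl⟩
    rw [Finset.mem_sdiff]
    refine ⟨hpA h1, fun h2 => ?_⟩
    by_cases h3 : pos (e j) (p.1 j, p.2 j) ∈ X e q
    · obtain ⟨i, hi⟩ := mem_X.mp h3
      have h4 := pos_inj hi
      have h5 : i = j := he.injective h4.1
      subst h5
      exact hne i hj h4.2.symm
    · have h4 : pos (e j) (p.1 j, p.2 j) ∈ A' \ X e q := Finset.mem_sdiff.mpr ⟨h2, h3⟩
      rw [← hT] at h4
      exact (Finset.mem_sdiff.mp h4).2 h1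
  have hq : ∀ j ∈ S, pos (e j) (q.1 j, q.2 j) ∈ A' \ A := by
    intro j hj
    have h1 : pos (e j) (q.1 j, q.2 j) ∈ X e q := mem_X.mpr ⟨j, rfl⟩
    rw [Finset.mem_sdiff]
    refine ⟨hqA h1, fun h2 => ?_⟩
    by_cases h3 : pos (e j) (q.1 j, q.2 j) ∈ X e p
    · obtain ⟨i, hi⟩ := mem_X.mp h3
      have h4 := pos_inj hi
      have h5 : i = j := he.injective h4.1
      subst h5
      exact hne i hj h4.2
    · have h4 : pos (e j) (q.1 j, q.2 j) ∈ A \ X e p := Finset.mem_sdiff.mpr ⟨h2, h3⟩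
      rw [hT] at h4
      exact (Finset.mem_sdiff.mp h4).2 h1
  have hp' : ∀ x ∈ A \ A', ∃ j ∈ S, pos (e j) (p.1 j, p.2 j) = x := by
    intro x hx
    rw [Finset.mem_sdiff] at hx
    have h1 : x ∈ X e p := by
      by_contra h
      have h4 : x ∈ A \ X e p := Finset.mem_sdiff.mpr ⟨hx.1, h⟩
      rw [hT] at h4
      exact hx.2 (Finset.mem_sdiff.mp h4).1
    obtain ⟨j, hj⟩ := mem_X.mp h1
    refine ⟨j, ?_, hj⟩
    by_contra hjS
    apply hx.2
    apply hqA
    have h2 := heq j hjS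
    rw [mem_X]
    exact ⟨j, by rw [← h2.1, ← h2.2]; exact hj⟩
  have hq' : ∀ x ∈ A' \ A, ∃ j ∈ S, pos (e j) (q.1 j, q.2 j) = x := by
    intro x hx
    rw [Finset.mem_sdiff] at hx
    have h1 : x ∈ X e q := by
      by_contra h
      have h4 : x ∈ A' \ X e q := Finset.mem_sdiff.mpr ⟨hx.1, h⟩
      rw [← hT] at h4
      exact hx.2 (Finset.mem_sdiff.mp h4).1
    obtain ⟨j, hj⟩ := mem_X.mp h1
    refine ⟨j, ?_, hj⟩
    by_contra hjS
    apply hx.2
    apply hpA
    have h2 := heq j hjS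
    rw [mem_X]
    exact ⟨j, by rw [h2.1, h2.2]; exact hj⟩
  let σ := S.orderEmbOfFin hS
  have hσ : ∀ i, σ i ∈ S := fun i => S.orderEmbOfFin_mem hS i
  have hσr : ∀ j ∈ S, ∃ i, σ i = j := by
    intro j hj
    have : j ∈ Set.range (S.orderEmbOfFin hS) := by
      rw [Finset.range_orderEmbOfFin]
      exact hj
    exact this
  have hdiv : ∀ t : Fin (2 * d), (t : ℕ) / 2 < d := fun t => by
    have := t.2
    omega
  let f : Fin (2 * d) → Fin (4 * D * (B * B)) := fun t =>
    if (t : ℕ) % 4 = 0 ∨ (t : ℕ) % 4 = 3 then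
      pos (e (σ ⟨(t : ℕ) / 2, hdiv t⟩)) (p.1 (σ ⟨(t : ℕ) / 2, hdiv t⟩), p.2 (σ ⟨(t : ℕ) / 2, hdiv t⟩))
    else
      pos (e (σ ⟨(t : ℕ) / 2, hdiv t⟩)) (q.1 (σ ⟨(t : ℕ) / 2, hdiv t⟩), q.2 (σ ⟨(t : ℕ) / 2, hdiv t⟩))
  have hfp : ∀ t : Fin (2 * d), ((t : ℕ) % 4 = 0 ∨ (t : ℕ) % 4 = 3) → f t =
      pos (e (σ ⟨(t : ℕ) / 2, hdiv t⟩))
        (p.1 (σ ⟨(t : ℕ) / 2, hdiv t⟩), p.2 (σ ⟨(t : ℕ) / 2, hdiv t⟩)) := by
    intro t ht
    simp only [f]
    rw [if_pos ht]
  have hfq : ∀ t : Fin (2 * d), ¬ ((t : ℕ) % 4 = 0 ∨ (t : ℕ) % 4 = 3) → f t =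
      pos (e (σ ⟨(t : ℕ) / 2, hdiv t⟩))
        (q.1 (σ ⟨(t : ℕ) / 2, hdiv t⟩), q.2 (σ ⟨(t : ℕ) / 2, hdiv t⟩)) := by
    intro t ht
    simp only [f]
    rw [if_neg ht]
  refine ⟨f, ?_, ?_, ?_⟩
  · intro t t' htt
    have htt' : (t : ℕ) < (t' : ℕ) := htt
    by_cases hlt : (t : ℕ) / 2 < (t' : ℕ) / 2
    · have h1 : e (σ ⟨(t : ℕ) / 2, hdiv t⟩) < e (σ ⟨(t' : ℕ) / 2, hdiv t'⟩) := by
        apply he
        apply σ.strictMono
        exact hlt
      by_cases hc : (t : ℕ) % 4 = 0 ∨ (t : ℕ) % 4 = 3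
      · by_cases hc' : (t' : ℕ) % 4 = 0 ∨ (t' : ℕ) % 4 = 3
        · rw [hfp t hc, hfp t' hc']
          exact pos_lt_block _ _ h1
        · rw [hfp t hc, hfq t' hc']
          exact pos_lt_block _ _ h1
      · by_cases hc' : (t' : ℕ) % 4 = 0 ∨ (t' : ℕ) % 4 = 3
        · rw [hfq t hc, hfp t' hc']
          exact pos_lt_block _ _ h1
        · rw [hfq t hc, hfq t' hc']
          exact pos_lt_block _ _ h1
    · have h1 : (t : ℕ) % 2 = 0 := by omega
      have h2 : (t' : ℕ) = (t : ℕ) + 1 := by omega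
      have h3 : (⟨(t' : ℕ) / 2, hdiv t'⟩ : Fin d) = ⟨(t : ℕ) / 2, hdiv t⟩ := by
        apply Fin.ext
        show (t' : ℕ) / 2 = (t : ℕ) / 2
        omega
      have h4 := halt (σ ⟨(t : ℕ) / 2, hdiv t⟩) (hσ _)
      have h5 : (S.filter (fun x => x < σ ⟨(t : ℕ) / 2, hdiv t⟩)).card = (t : ℕ) / 2 :=
        rank_eq hS ⟨(t : ℕ) / 2, hdiv t⟩
      rw [h5] at h4
      by_cases hev : (t : ℕ) % 4 = 0
      · rw [hfp t (Or.inl hev), hfq t' (by omega), h3]
        apply pos_lt_digit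
        exact h4.1 (by rw [Nat.even_iff]; omega)
      · rw [hfq t (by omega), hfp t' (by omega), h3]
        apply pos_lt_digit
        exact h4.2 (by rw [Nat.even_iff]; omega)
  · intro x
    rw [Finset.mem_symmDiff]
    constructor
    · rintro (⟨h1, h2⟩ | ⟨h1, h2⟩)
      · obtain ⟨j, hj, hjx⟩ := hp' x (Finset.mem_sdiff.mpr ⟨h1, h2⟩)
        obtain ⟨i, hi⟩ := hσr j hj
        by_cases hev : (i : ℕ) % 2 = 0
        · refine ⟨⟨2 * (i : ℕ), by omega⟩, ?_⟩
          have h3 : (⟨(2 * (i : ℕ)) / 2, by omega⟩ : Fin d) = i := by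
            apply Fin.ext
            show (2 * (i : ℕ)) / 2 = (i : ℕ)
            omega
          rw [hfp _ (by show (2 * (i : ℕ)) % 4 = 0 ∨ (2 * (i : ℕ)) % 4 = 3; omega)]
          simp only [h3]
          rw [hi]
          exact hjx
        · refine ⟨⟨2 * (i : ℕ) + 1, by omega⟩, ?_⟩
          have h3 : (⟨(2 * (i : ℕ) + 1) / 2, by omega⟩ : Fin d) = i := by
            apply Fin.ext
            show (2 * (i : ℕ) + 1) / 2 = (i : ℕ)
            omega
          rw [hfp _ (by show (2 * (i : ℕ) + 1) % 4 = 0 ∨ (2 * (i : ℕ) + 1) % 4 = 3; omega)]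
          simp only [h3]
          rw [hi]
          exact hjx
      · obtain ⟨j, hj, hjx⟩ := hq' x (Finset.mem_sdiff.mpr ⟨h1, h2⟩)
        obtain ⟨i, hi⟩ := hσr j hj
        by_cases hev : (i : ℕ) % 2 = 0
        · refine ⟨⟨2 * (i : ℕ) + 1, by omega⟩, ?_⟩
          have h3 : (⟨(2 * (i : ℕ) + 1) / 2, by omega⟩ : Fin d) = i := by
            apply Fin.ext
            show (2 * (i : ℕ) + 1) / 2 = (i : ℕ)
            omega
          rw [hfq _ (by show ¬ ((2 * (i : ℕ) + 1) % 4 = 0 ∨ (2 * (i : ℕ) + 1) % 4 = 3); omega)]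
          simp only [h3]
          rw [hi]
          exact hjx
        · refine ⟨⟨2 * (i : ℕ), by omega⟩, ?_⟩
          have h3 : (⟨(2 * (i : ℕ)) / 2, by omega⟩ : Fin d) = i := by
            apply Fin.ext
            show (2 * (i : ℕ)) / 2 = (i : ℕ)
            omega
          rw [hfq _ (by show ¬ ((2 * (i : ℕ)) % 4 = 0 ∨ (2 * (i : ℕ)) % 4 = 3); omega)]
          simp only [h3]
          rw [hi]
          exact hjx
    · rintro ⟨t, rfl⟩
      by_cases hc : (t : ℕ) % 4 = 0 ∨ (t : ℕ) % 4 = 3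
      · left
        rw [hfp t hc]
        exact Finset.mem_sdiff.mp (hp _ (hσ _))
      · right
        rw [hfq t hc]
        exact Finset.mem_sdiff.mp (hq _ (hσ _))
  · intro t
    unfold pat
    rw [decide_eq_true_iff]
    by_cases hc : (t : ℕ) % 4 = 0 ∨ (t : ℕ) % 4 = 3
    · rw [hfp t hc]
      exact ⟨fun _ => hp _ (hσ _), fun _ => hc⟩
    · rw [hfq t hc]
      refine ⟨fun h => absurd h hc, fun h => ?_⟩
      have h1 := hq (σ ⟨(t : ℕ) / 2, hdiv t⟩) (hσ _)
      exact absurd (Finset.mem_sdiff.mp h1).1 (Finset.mem_sdiff.mp h).2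

lemma sum_occ (A : Finset (Fin (4 * D * (B * B)))) :
    ∑ b : Fin (4 * D), (Finset.univ.filter (fun w : Fin B × Fin B => pos b w ∈ A)).card =
      A.card := by
  classical
  have h1 : A.card = ∑ x : Fin (4 * D * (B * B)), if x ∈ A then 1 else 0 := by
    rw [← Finset.card_filter]
    simp
  have h2 : ∑ x : Fin (4 * D * (B * B)), (if x ∈ A then 1 else 0) =
      ∑ y : Fin (4 * D) × (Fin B × Fin B), if pos y.1 y.2 ∈ A then 1 else 0 := by
    let E : Fin (4 * D) × (Fin B × Fin B) ≃ Fin (4 * D * (B * B)) :=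
      (Equiv.prodCongr (Equiv.refl _) finProdFinEquiv).trans finProdFinEquiv
    rw [← Equiv.sum_comp E]
    rfl
  rw [h1, h2, Fintype.sum_prod_type]
  apply Finset.sum_congr rfl
  intro b _
  rw [Finset.card_filter]

lemma occ_le (A : Finset (Fin (4 * D * (B * B)))) (b : Fin (4 * D)) :
    (Finset.univ.filter (fun w : Fin B × Fin B => pos b w ∈ A)).card ≤ B * B := by
  have h := Finset.card_le_univ (Finset.univ.filter (fun w : Fin B × Fin B => pos b w ∈ A))
  rw [Fintype.card_prod, Fintype.card_fin] at h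
  exact h

lemma occupancy (hD : 0 < D) (hB : 0 < B) (A : Finset (Fin (4 * D * (B * B))))
    (hA : A.card = 2 * D * (B * B)) :
    D ≤ (Finset.univ.filter (fun b : Fin (4 * D) =>
      B * B ≤ 4 * (Finset.univ.filter (fun w : Fin B × Fin B => pos b w ∈ A)).card)).card := by
  classical
  by_contra hcon
  push Not at hcon
  set c : Fin (4 * D) → ℕ := fun b =>
    (Finset.univ.filter (fun w : Fin B × Fin B => pos b w ∈ A)).card with hc
  have h1 : ∑ b, c b = 2 * D * (B * B) := by rw [← hA]; exact sum_occ A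
  set H := Finset.univ.filter (fun b : Fin (4 * D) => B * B ≤ 4 * c b) with hH
  have h2 : ∑ b, 4 * c b ≤ ∑ b : Fin (4 * D), (B * B + if b ∈ H then 3 * (B * B) else 0) := by
    apply Finset.sum_le_sum
    intro b _
    have h3 : c b ≤ B * B := occ_le A b
    by_cases hb : b ∈ H
    · rw [if_pos hb]
      omega
    · rw [if_neg hb]
      have : ¬ (B * B ≤ 4 * c b) := by
        intro h
        exact hb (by rw [hH, Finset.mem_filter]; exact ⟨Finset.mem_univ _, h⟩)
      omega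
  rw [Finset.sum_add_distrib, Finset.sum_const, Finset.card_univ, Fintype.card_fin,
    Finset.sum_ite_mem, Finset.univ_inter, Finset.sum_const, ← Finset.mul_sum, h1, smul_eq_mul,
    smul_eq_mul] at h2
  have h4 : H.card * (3 * (B * B)) < D * (3 * (B * B)) := by
    apply Nat.mul_lt_mul_of_pos_right hcon
    positivity
  have h5 : 0 < D * (B * B) := by positivity
  have h6 : 4 * (2 * D * (B * B)) = 8 * (D * (B * B)) := by ring
  have h7 : 4 * D * (B * B) = 4 * (D * (B * B)) := by ring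
  have h8 : D * (3 * (B * B)) = 3 * (D * (B * B)) := by ring
  omega

lemma exists_blocks (hD : 0 < D) (hB : 0 < B) (A : Finset (Fin (4 * D * (B * B))))
    (hA : A.card = 2 * D * (B * B)) :
    ∃ e : Fin D → Fin (4 * D), StrictMono e ∧ ∀ i,
      B * B ≤ 4 * (Finset.univ.filter (fun w : Fin B × Fin B => pos (e i) w ∈ A)).card := by
  obtain ⟨H, hH, hHc⟩ := Finset.exists_subset_card_eq (occupancy hD hB A hA)
  refine ⟨H.orderEmbOfFin hHc, (H.orderEmbOfFin hHc).strictMono, fun i => ?_⟩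
  exact (Finset.mem_filter.mp (hH (H.orderEmbOfFin_mem hHc i))).2

lemma count_points (e : Fin D → Fin (4 * D)) (A : Finset (Fin (4 * D * (B * B))))
    (h : ∀ i, B * B ≤ 4 * (Finset.univ.filter (fun w : Fin B × Fin B => pos (e i) w ∈ A)).card) :
    (B * B) ^ D ≤ 4 ^ D * (Finset.univ.filter (fun z : Pt (Fin D) B => X e z ⊆ A)).card := by
  classical
  let F : Fin D → Finset (Fin B × Fin B) := fun i =>
    Finset.univ.filter (fun w : Fin B × Fin B => pos (e i) w ∈ A)
  have h1 : (Fintype.piFinset F).card ≤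
      (Finset.univ.filter (fun z : Pt (Fin D) B => X e z ⊆ A)).card := by
    apply Finset.card_le_card_of_injOn
      (fun w => ((fun i => (w i).1, fun i => (w i).2) : Pt (Fin D) B))
    · intro w hw
      have hw' := Fintype.mem_piFinset.mp hw
      simp only [Finset.coe_filter, Finset.mem_univ, true_and, Set.mem_ofPred_eq]
      intro x hx
      obtain ⟨i, hi⟩ := mem_X.mp hx
      rw [← hi]
      exact (Finset.mem_filter.mp (hw' i)).2
    · intro w _ w' _ hww
      have h2 := (Prod.mk.inj hww).1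
      have h3 := (Prod.mk.inj hww).2
      funext i
      exact Prod.ext (congrFun h2 i) (congrFun h3 i)
  rw [Fintype.card_piFinset] at h1
  calc (B * B) ^ D = ∏ _i : Fin D, (B * B) := by
        rw [Finset.prod_const, Finset.card_univ, Fintype.card_fin]
    _ ≤ ∏ i : Fin D, 4 * (F i).card := Finset.prod_le_prod' (fun i _ => h i)
    _ = 4 ^ D * ∏ i : Fin D, (F i).card := by
        rw [Finset.prod_mul_distrib, Finset.prod_const, Finset.card_univ, Fintype.card_fin]
    _ ≤ _ := Nat.mul_le_mul_left _ h1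

/-- Families in the middle layer without the pattern plus, minus, minus, plus, plus, minus, minus, plus, ... of order `2 d`. -/
theorem layer (g : ℕ) : ∃ D d K : ℕ, 0 < D ∧ 0 < d ∧ Even d ∧ ∀ B : ℕ, 0 < B →
    ∀ 𝒜 : Finset (Finset (Fin (4 * D * (B * B)))), (∀ A ∈ 𝒜, A.card = 2 * D * (B * B)) →
      PatternFree (pat (2 * d)) 𝒜 →
      𝒜.card * B ^ (g + 1) ≤ K * (4 * D * (B * B)).choose (2 * D * (B * B)) := by
  classical
  obtain ⟨D, d, K, hD, hd, hde, hgrid⟩ := grid_fin g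
  refine ⟨D, d, 4 ^ D * ((4 * D) ^ D) * K, hD, hd, hde, ?_⟩
  intro B hB 𝒜 hA hfree
  -- triples
  let Ω : Finset (Finset (Fin (4 * D * (B * B))) × ((Fin D → Fin (4 * D)) × Pt (Fin D) B)) :=
    (𝒜 ×ˢ Finset.univ).filter (fun ω => StrictMono ω.2.1 ∧ X ω.2.1 ω.2.2 ⊆ ω.1)
  let T : Finset ((Fin D → Fin (4 * D)) × Finset (Fin (4 * D * (B * B)))) :=
    Finset.univ ×ˢ Finset.powersetCard (2 * D * (B * B) - D) Finset.univ
  let π : Finset (Fin (4 * D * (B * B))) × ((Fin D → Fin (4 * D)) × Pt (Fin D) B) →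
      (Fin D → Fin (4 * D)) × Finset (Fin (4 * D * (B * B))) := fun ω => (ω.2.1, ω.1 \ X ω.2.1 ω.2.2)
  have hlow : 𝒜.card * (B * B) ^ D ≤ 4 ^ D * Ω.card := by
    have h1 : Ω.card = ∑ A ∈ 𝒜, (Ω.filter (fun ω => ω.1 = A)).card :=
      Finset.card_eq_sum_card_fiberwise (fun ω hω =>
        (Finset.mem_product.mp (Finset.mem_filter.mp hω).1).1)
    rw [h1, Finset.mul_sum]
    calc 𝒜.card * (B * B) ^ D = ∑ _A ∈ 𝒜, (B * B) ^ D := by
          rw [Finset.sum_const, smul_eq_mul]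
      _ ≤ _ := by
          apply Finset.sum_le_sum
          intro A hAA
          obtain ⟨e, he, hocc⟩ := exists_blocks hD hB A (hA A hAA)
          refine (count_points e A hocc).trans (Nat.mul_le_mul_left _ ?_)
          apply Finset.card_le_card_of_injOn (fun z => (A, (e, z)))
          · intro z hz
            have hz' := (Finset.mem_filter.mp hz).2
            simp only [Finset.coe_filter, Set.mem_ofPred_eq, Ω, Finset.mem_filter,
              Finset.mem_product, Finset.mem_univ, and_true]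
            exact ⟨hAA, he, hz'⟩
          · intro z _ z' _ hzz
            exact (Prod.mk.inj (Prod.mk.inj hzz).2).2
  have hmaps : ∀ ω ∈ Ω, π ω ∈ T := by
    intro ω hω
    have h1 := Finset.mem_filter.mp hω
    have h2 := (Finset.mem_product.mp h1.1).1
    simp only [T, π, Finset.mem_product, Finset.mem_univ, true_and, Finset.mem_powersetCard,
      Finset.subset_univ]
    rw [Finset.card_sdiff_of_subset h1.2.2, hA _ h2, X_card h1.2.1]
  have hfib : ∀ y ∈ T, (Ω.filter (fun ω => π ω = y)).card * B ^ (g + 1) ≤ K * B ^ (2 * D) := by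
    intro y _
    by_contra hcon
    push Not at hcon
    let G : Finset (Pt (Fin D) B) := (Ω.filter (fun ω => π ω = y)).image (fun ω => ω.2.2)
    have hGc : G.card = (Ω.filter (fun ω => π ω = y)).card := by
      apply Finset.card_image_of_injOn
      intro ω hω ω' hω' h
      have h1 := Finset.mem_filter.mp hω
      have h1' := Finset.mem_filter.mp hω'
      have h2 := (Finset.mem_filter.mp h1.1).2
      have h2' := (Finset.mem_filter.mp h1'.1).2
      have h3 : π ω = π ω' := h1.2.trans h1'.2.symm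
      simp only [π, Prod.mk.injEq] at h3
      have h4 : ω.2.2 = ω'.2.2 := h
      have h5 : ω.1 = ω'.1 := by
        rw [← Finset.sdiff_union_of_subset h2.2, ← Finset.sdiff_union_of_subset h2'.2, h3.2, h3.1,
          h4]
      exact Prod.ext h5 (Prod.ext h3.1 h4)
    rw [← hGc] at hcon
    obtain ⟨p, hp, q, hq, S, hS, heq, halt⟩ := hgrid B G hcon
    obtain ⟨ω, hω, hωp⟩ := Finset.mem_image.mp hp
    obtain ⟨ω', hω', hωq⟩ := Finset.mem_image.mp hq
    have h1 := Finset.mem_filter.mp hω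
    have h1' := Finset.mem_filter.mp hω'
    have h2 := Finset.mem_filter.mp h1.1
    have h2' := Finset.mem_filter.mp h1'.1
    have h3 : π ω = π ω' := h1.2.trans h1'.2.symm
    simp only [π, Prod.mk.injEq] at h3
    apply hfree ω.1 (Finset.mem_product.mp h2.1).1 ω'.1 (Finset.mem_product.mp h2'.1).1
    apply forms_of_concl (e := ω.2.1) h2.2.1 (p := p) (q := q) _ _ _ hS heq halt
    · rw [← hωp]; exact h2.2.2
    · rw [← hωq, h3.1]; exact h2'.2.2
    · rw [← hωp, ← hωq]
      have h4 := h3.2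
      rw [h3.1] at h4 ⊢
      exact h4
  have hup : Ω.card * B ^ (g + 1) ≤
      ((4 * D) ^ D * (4 * D * (B * B)).choose (2 * D * (B * B) - D)) * (K * B ^ (2 * D)) := by
    have h1 : Ω.card = ∑ y ∈ T, (Ω.filter (fun ω => π ω = y)).card :=
      Finset.card_eq_sum_card_fiberwise hmaps
    rw [h1, Finset.sum_mul]
    calc ∑ y ∈ T, (Ω.filter (fun ω => π ω = y)).card * B ^ (g + 1)
        ≤ ∑ _y ∈ T, K * B ^ (2 * D) := Finset.sum_le_sum hfib
      _ = T.card * (K * B ^ (2 * D)) := by rw [Finset.sum_const, smul_eq_mul]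
      _ = _ := by
          simp only [T, Finset.card_product, Finset.card_univ, Fintype.card_fun, Fintype.card_fin,
            Finset.card_powersetCard]
  have hchoose : (4 * D * (B * B)).choose (2 * D * (B * B) - D) ≤ (4 * D * (B * B)).choose (2 * D * (B * B)) := by
    have h1 : 2 * D * (B * B) = 4 * D * (B * B) / 2 := by
      have : 4 * D * (B * B) = 2 * (2 * D * (B * B)) := by ring
      omega
    rw [h1]
    exact Nat.choose_le_middle _ _
  have hBpow : (B * B) ^ D = B ^ (2 * D) := by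
    rw [← pow_two, ← pow_mul]
  have hpos : 0 < B ^ (2 * D) := by positivity
  apply le_of_mul_le_mul_right _ hpos
  calc 𝒜.card * B ^ (g + 1) * B ^ (2 * D) = 𝒜.card * (B * B) ^ D * B ^ (g + 1) := by
        rw [hBpow]; ring
    _ ≤ 4 ^ D * Ω.card * B ^ (g + 1) := Nat.mul_le_mul_right _ hlow
    _ = 4 ^ D * (Ω.card * B ^ (g + 1)) := by ring
    _ ≤ 4 ^ D * (((4 * D) ^ D * (4 * D * (B * B)).choose (2 * D * (B * B) - D)) * (K * B ^ (2 * D))) :=
        Nat.mul_le_mul_left _ hup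
    _ ≤ 4 ^ D * (((4 * D) ^ D * (4 * D * (B * B)).choose (2 * D * (B * B))) * (K * B ^ (2 * D))) := by
        apply Nat.mul_le_mul_left
        apply Nat.mul_le_mul_right
        exact Nat.mul_le_mul_left _ hchoose
    _ = _ := by ring

end

end Pool.Agent.R103.Layer
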